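import Mathlib
import Pool.Agent.Helper70.KN.Goals

/-!
# Project KN (MP_20ee5e_ag), packet JE: sum over the columns
-/

open MeasureTheory Set

namespace Pool.Agent.Helper63.KN.JE

open Pool.Agent.Helper70.KN

variable {N : ℕ}

lemma col_open (i : Fin N) (p : Fin N → ℕ) : IsOpen (col i p) := by
  have : col i p = ⋂ j : Fin N, {x : Fin N → ℝ | j ≠ i → |x j - p j| < 1 / 2} := by
    ext x
    simp [col]
  rw [this]
  refine isOpen_iInter_of_finite fun j => ?_
  by_cases hj : j = i
  · have : {x : Fin N → ℝ | j ≠ i → |x j - p j| < 1 / 2} = Set.univ := by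
      ext x; simp [hj]
    rw [this]
    exact isOpen_univ
  · have : {x : Fin N → ℝ | j ≠ i → |x j - p j| < 1 / 2} =
        {x : Fin N → ℝ | |x j - (p j : ℝ)| < 1 / 2} := by
      ext x; simp [hj]
    rw [this]
    exact isOpen_lt (by fun_prop) continuous_const

lemma exists_large {F : Finset (Fin N → ℕ)} {i : Fin N} (hF : F.Nonempty)
    (hinj : ∀ p ∈ F, ∀ q ∈ F, p i = q i → p = q) (hpos : ∀ p ∈ F, 0 < p i) :
    ∃ p ∈ F, F.card ≤ p i := by
  by_contra hcon
  push Not at hcon
  have h1 : F.card ≤ (Finset.Icc 1 (F.card - 1)).card := by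
    refine Finset.card_le_card_of_injOn (fun p => p i) ?_ ?_
    · intro p hp
      have h2 := hcon p hp
      have h3 := hpos p hp
      simp only [Finset.coe_Icc, Set.mem_Icc]
      omega
    · intro p hp q hq h
      exact hinj p hp q hq h
  have h2 : 0 < F.card := hF.card_pos
  rw [Nat.card_Icc] at h1
  omega

theorem t (hBD : S_BD) (hCL : S_CL) (hJI : S_JI) (hCO : S_CO) : S_JE := by
  intro N V hV i
  classical
  set R : Set (Fin N → ℝ) := {x | 0 ≤ x ∧ x ∉ newton V ∧ ∀ j, j ≠ i → 1 / 2 ≤ x j} with hR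
  have hRfin : volume R ≠ ⊤ := by
    obtain ⟨M, hM, hb⟩ := hBD N V hV
    have hsub : R ⊆ Set.Icc (0 : Fin N → ℝ) (fun _ => M) := by
      intro x hx
      exact ⟨hx.1, fun j => (hb x hx.1 hx.2.1 j).le⟩
    exact ((measure_mono hsub).trans_lt (isCompact_Icc.measure_lt_top)).ne
  unfold genus
  set P : Set (Fin N → ℕ) :=
    {p : Fin N → ℕ | (∀ i, 0 < p i) ∧ (fun i => (p i : ℝ)) ∉ interior (newton V)} with hP
  by_cases hfin : P.Finite
  swap
  · rw [Set.Infinite.ncard hfin]
    simp
  rw [Set.ncard_eq_toFinset_card P hfin]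
  set F := hfin.toFinset with hF
  let bb : (Fin N → ℕ) → (Fin N → ℕ) := fun p => Function.update p i 0
  let A : (Fin N → ℕ) → Set (Fin N → ℝ) := fun b => {x | 0 ≤ x ∧ x ∉ newton V} ∩ col i b
  have hmeas : ∀ b, MeasurableSet (A b) := by
    intro b
    refine MeasurableSet.inter ?_ (col_open i b).measurableSet
    have h1 : MeasurableSet {x : Fin N → ℝ | 0 ≤ x} := (isClosed_Ici (a := (0 : Fin N → ℝ))).measurableSet
    have h2 : MeasurableSet (newton V)ᶜ := (hCL N V).1.measurableSet.compl
    exact h1.inter h2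
  have hmemF : ∀ p, p ∈ F ↔ (∀ j, 0 < p j) ∧ (fun j => (p j : ℝ)) ∉ interior (newton V) := by
    intro p
    rw [hF, Set.Finite.mem_toFinset, hP, Set.mem_ofPred_eq]
  have hfib : ∀ b ∈ F.image bb, ((F.filter (fun p => bb p = b)).card : ℝ) ≤ (volume (A b)).toReal := by
    intro b hb
    obtain ⟨p0, hp0, hp0b⟩ := Finset.mem_image.1 hb
    obtain ⟨p, hp, hcard⟩ := exists_large (F := F.filter (fun p => bb p = b)) (i := i)
      ⟨p0, Finset.mem_filter.2 ⟨hp0, hp0b⟩⟩ (by
        intro p hp q hq h
        have h1 := (Finset.mem_filter.1 hp).2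
        have h2 := (Finset.mem_filter.1 hq).2
        funext j
        by_cases hj : j = i
        · rw [hj]; exact h
        · have h3 : bb p j = bb q j := by rw [h1, h2]
          simpa [bb, Function.update_of_ne hj] using h3) (by
        intro p hp
        exact ((hmemF p).1 (Finset.mem_filter.1 hp).1).1 i)
    obtain ⟨hpF, hpb⟩ := Finset.mem_filter.1 hp
    obtain ⟨hpos, hint⟩ := (hmemF p).1 hpF
    have h1 := hCO N V hV i p (F.filter (fun p => bb p = b)).card (fun j _ => hpos j) (by
      intro s _ hs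
      refine hJI N V hV i p hpos hint s (hs.trans_le ?_)
      exact_mod_cast hcard)
    have h2 : col i p = col i b := by
      ext x
      simp only [col, Set.mem_ofPred_eq]
      refine forall_congr' fun j => ?_
      refine imp_congr_right fun hj => ?_
      have : p j = b j := by
        rw [← hpb]
        simp [bb, Function.update_of_ne hj]
      rw [this]
    rw [h2] at h1
    exact h1
  have hdisj : Set.PairwiseDisjoint (F.image bb : Set (Fin N → ℕ)) A := by
    intro b hb b' hb' hne
    rw [Function.onFun, Set.disjoint_left]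
    rintro x ⟨_, hx⟩ ⟨_, hx'⟩
    apply hne
    obtain ⟨p, _, hpb⟩ := Finset.mem_image.1 (Finset.mem_coe.1 hb)
    obtain ⟨p', _, hpb'⟩ := Finset.mem_image.1 (Finset.mem_coe.1 hb')
    funext j
    by_cases hj : j = i
    · rw [← hpb, ← hpb', hj]
      simp [bb]
    · have h1 := abs_lt.1 (hx j hj)
      have h2 := abs_lt.1 (hx' j hj)
      have h3 : (b j : ℝ) < b' j + 1 := by linarith [h1.1, h1.2, h2.1, h2.2]
      have h4 : (b' j : ℝ) < b j + 1 := by linarith [h1.1, h1.2, h2.1, h2.2]
      have h3' : b j < b' j + 1 := by exact_mod_cast h3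
      have h4' : b' j < b j + 1 := by exact_mod_cast h4
      omega
  have hsub : (⋃ b ∈ F.image bb, A b) ⊆ R := by
    intro x hx
    obtain ⟨b, hb, hxA⟩ := Set.mem_iUnion₂.1 hx
    obtain ⟨⟨hx0, hxn⟩, hxc⟩ := hxA
    refine ⟨hx0, hxn, fun j hj => ?_⟩
    obtain ⟨p, hp, hpb⟩ := Finset.mem_image.1 hb
    have h1 := abs_lt.1 (hxc j hj)
    have h2 : b j = p j := by
      rw [← hpb]
      simp [bb, Function.update_of_ne hj]
    have h3 : 1 ≤ p j := ((hmemF p).1 hp).1 j
    have h4 : (1 : ℝ) ≤ b j := by rw [h2]; exact_mod_cast h3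
    linarith [h1.1]
  have hunion : volume (⋃ b ∈ F.image bb, A b) = ∑ b ∈ F.image bb, volume (A b) :=
    measure_biUnion_finset hdisj (fun b _ => hmeas b)
  have hle := measure_mono (μ := volume) hsub
  have hAfin : ∀ b ∈ F.image bb, volume (A b) ≠ ⊤ := by
    intro b hb
    refine ((measure_mono (μ := volume) ?_).trans hle).trans_lt (lt_top_iff_ne_top.2 hRfin) |>.ne
    exact Set.subset_biUnion_of_mem (u := A) hb
  calc (F.card : ℝ) = ∑ b ∈ F.image bb, ((F.filter (fun p => bb p = b)).card : ℝ) := by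
        rw [Finset.card_eq_sum_card_image bb F]
        push_cast
        rfl
    _ ≤ ∑ b ∈ F.image bb, (volume (A b)).toReal := Finset.sum_le_sum hfib
    _ = (∑ b ∈ F.image bb, volume (A b)).toReal := (ENNReal.toReal_sum hAfin).symm
    _ = (volume (⋃ b ∈ F.image bb, A b)).toReal := by rw [hunion]
    _ ≤ (volume R).toReal := ENNReal.toReal_mono hRfin hle

end Pool.Agent.Helper63.KN.JE
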